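import Pool.Agent.MWP.Stmts

/-!
# MWP, row VIS (helper30)
-/

namespace Pool.Agent.MWP.H30

open Pool.Agent.Helper14_MV Pool.Agent.Helper2_MV Pool.Agent.MWF Pool.Agent.MWP

theorem rtr {β : FIC} {a b c : List ℕ} (h1 : RR β a b) (h2 : RR β b c) : RR β a c :=
  β.trans h1 h2

theorem mem_dbl {c : ℕ} {l : List ℕ} : c ∈ dbl l ↔ c ∈ l := by
  unfold dbl
  rw [List.mem_flatMap]
  constructor
  · rintro ⟨a, ha, h⟩
    simp only [List.mem_cons, List.not_mem_nil, or_false, or_self] at h
    rw [h]; exact ha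
  · intro h
    exact ⟨c, h, by simp⟩

theorem pair_dbl {c d : ℕ} (h : c ≠ d) {l : List ℕ} :
    [c, d].Sublist (dbl l) ↔ [c, d].Sublist l := by
  unfold dbl
  rw [pair_flatMap]
  constructor
  · rintro (⟨a, _, h1⟩ | ⟨a, b, h1, h2, h3⟩)
    · exfalso
      have h2 := pair_mem h1
      simp only [List.mem_cons, List.not_mem_nil, or_false, or_self] at h2
      exact h (h2.1.trans h2.2.symm)
    · simp only [List.mem_cons, List.not_mem_nil, or_false, or_self] at h2 h3
      rw [h2, h3]; exact h1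
  · intro h1
    exact Or.inr ⟨c, d, h1, by simp, by simp⟩

theorem mem_c0 {v : List ℕ} {c : ℕ} :
    c ∈ c0 v ↔ (1 ≤ c ∧ c ≤ 6) ∨ c ∈ v.map (fun c => c + 7) := by
  unfold c0 V7
  simp only [List.mem_append, List.mem_cons, List.not_mem_nil, or_false, mem_dbl]
  constructor
  · rintro ((h | h) | h)
    · left; omega
    · right; exact h
    · left; omega
  · rintro (h | h)
    · have : c = 1 ∨ c = 2 ∨ c = 3 ∨ c = 4 ∨ c = 5 ∨ c = 6 := by omega
      rcases this with rfl | rfl | rfl | rfl | rfl | rfl <;> simp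
    · left; right; exact h

theorem mem_m {v : List ℕ} {c : ℕ} (h : c ∈ v.map (fun c => c + 7)) : 7 ≤ c := by
  rw [List.mem_map] at h
  obtain ⟨a, _, rfl⟩ := h
  omega

/-- the filter -/
def pf (l r : ℕ) (c : ℕ) : Bool := decide (c = 0 ∨ c = l ∨ c = r ∨ 7 ≤ c)

theorem filter_c0 {v : List ℕ} {l r : ℕ} (hl : l = 1 ∨ l = 2) (hr : r = 3 ∨ r = 4) :
    (c0 v).filter (pf l r) = l :: (V7 v ++ [r]) := by
  have hV : (V7 v).filter (pf l r) = V7 v := by
    rw [List.filter_eq_self]
    intro c hc
    unfold V7 at hc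
    rw [mem_dbl] at hc
    have := mem_m hc
    unfold pf
    rw [decide_eq_true_eq]
    right; right; right; exact this
  unfold c0
  rw [List.filter_append, List.filter_append, hV]
  rcases hl with rfl | rfl <;> rcases hr with rfl | rfl <;> rfl

/-- first block before renaming -/
def u0 (v : List ℕ) (l r : ℕ) : List ℕ := l :: (v.map (fun c => c + 7) ++ [r])

theorem first {β : FIC} (hβ : Bt β) {v w0 w1 : List ℕ} (hB : Bas v w0 w1) {l r : ℕ}
    (hl : l = 1 ∨ l = 2) (hr : r = 3 ∨ r = 4) :
    RR β (dbl (w0.filter (pf l r))) (dbl (u0 v l r)) := by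
  apply hβ.sato
  · intro a
    have e1 : a ∈ w0.filter (pf l r) ↔ a ∈ (c0 v).filter (pf l r) := by
      rw [List.mem_filter, List.mem_filter, hB.m0]
    rw [e1, filter_c0 hl hr]
    unfold u0 V7
    simp only [List.mem_cons, List.mem_append, mem_dbl]
  · intro a b hab
    have e1 : [a, b].Sublist (w0.filter (pf l r)) ↔ [a, b].Sublist ((c0 v).filter (pf l r)) := by
      rw [pair_filter, pair_filter, hB.pt a b hab]
    rw [e1, filter_c0 hl hr]
    unfold u0 V7
    simp only [pair_cons, pair_append, pair_dbl hab, List.mem_append, mem_dbl]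

theorem pair_two {a b l r : ℕ} : [a, b].Sublist [l, r] ↔ a = l ∧ b = r := by
  rw [pair_cons, pair_cons]
  constructor
  · rintro (⟨h1, h2⟩ | ⟨_, h2⟩ | h)
    · exact ⟨h1, List.mem_singleton.1 h2⟩
    · simp at h2
    · exact absurd h pair_nil
  · rintro ⟨h1, h2⟩
    exact Or.inl ⟨h1, List.mem_singleton.2 h2⟩

theorem pair_three {a b l r : ℕ} (hab : a ≠ b) (hlr : l ≠ r) :
    [a, b].Sublist [l, r, l] ↔ ((a = l ∧ b = r) ∨ (a = r ∧ b = l)) := by
  rw [pair_cons, pair_two]
  simp only [List.mem_cons, List.not_mem_nil, or_false]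
  constructor
  · rintro (⟨h1, h2 | h2⟩ | h)
    · exact Or.inl ⟨h1, h2⟩
    · exact absurd (h1.trans h2.symm) hab
    · exact Or.inr h
  · rintro (⟨h1, h2⟩ | h)
    · exact Or.inl ⟨h1, Or.inl h2⟩
    · exact Or.inr h

/-- the second block, all patterns -/
theorem second {β : FIC} (hβ : Bt β) {f : List ℕ} {l r : ℕ} (hlr : l ≠ r)
    (hm : ∀ c, c ∈ f ↔ c = l ∨ c = r) :
    (¬ [r, l].Sublist f → RR β (dbl f) (dbl [l, r])) ∧
    (¬ [l, r].Sublist f → RR β (dbl f) (dbl [r, l])) ∧
    ([l, r].Sublist f → [r, l].Sublist f → RR β (dbl f) (dbl [l, r, l])) := by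
  have hl : l ∈ f := (hm l).2 (Or.inl rfl)
  have hr : r ∈ f := (hm r).2 (Or.inr rfl)
  have hc : ∀ a b, a ≠ b → [a, b].Sublist f → (a = l ∧ b = r) ∨ (a = r ∧ b = l) := by
    intro a b hab h
    obtain ⟨h1, h2⟩ := pair_mem h
    rw [hm] at h1 h2
    rcases h1 with h1 | h1 <;> rcases h2 with h2 | h2
    · exact absurd (h1.trans h2.symm) hab
    · exact Or.inl ⟨h1, h2⟩
    · exact Or.inr ⟨h1, h2⟩
    · exact absurd (h1.trans h2.symm) hab
  refine ⟨?_, ?_, ?_⟩
  · intro h
    apply hβ.sato
    · intro a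
      rw [hm]; simp
    · intro a b hab
      rw [pair_two]
      constructor
      · intro h1
        rcases hc a b hab h1 with h2 | h2
        · exact h2
        · rw [h2.1, h2.2] at h1; exact absurd h1 h
      · rintro ⟨rfl, rfl⟩
        rcases pair_total hl hr hlr with h1 | h1
        · exact h1
        · exact absurd h1 h
  · intro h
    apply hβ.sato
    · intro a
      rw [hm]; simp only [List.mem_cons, List.not_mem_nil, or_false]; tauto
    · intro a b hab
      rw [pair_two]
      constructor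
      · intro h1
        rcases hc a b hab h1 with h2 | h2
        · rw [h2.1, h2.2] at h1; exact absurd h1 h
        · exact h2
      · rintro ⟨rfl, rfl⟩
        rcases pair_total hl hr hlr with h1 | h1
        · exact absurd h1 h
        · exact h1
  · intro h1 h2
    apply hβ.sato
    · intro a
      rw [hm]; simp only [List.mem_cons, List.not_mem_nil, or_false]; tauto
    · intro a b hab
      rw [pair_three hab hlr]
      constructor
      · exact hc a b hab
      · rintro (⟨rfl, rfl⟩ | ⟨rfl, rfl⟩)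
        · exact h1
        · exact h2

theorem d0_dbl {w : List ℕ} (h : 0 ∉ w) : d0 w = dbl w := by
  induction w with
  | nil => rfl
  | cons a w ih =>
    have h1 : a ≠ 0 := fun e => h (by simp [e])
    have h2 : 0 ∉ w := fun e => h (List.mem_cons_of_mem _ e)
    unfold d0 dbl at ih ⊢
    rw [List.flatMap_cons, List.flatMap_cons, ih h2, if_neg h1]

/-- renaming -/
def gm (l r c : ℕ) : ℕ := if c = l then 0 else if c = r then 1 else if c = 0 then 2 else c - 4

def gs (l r : ℕ) : ℕ → List ℕ := fun c => [gm l r c]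

theorem sub_dbl (l r : ℕ) (w : List ℕ) : (dbl w).flatMap (gs l r) = dbl (w.map (gm l r)) := by
  induction w with
  | nil => rfl
  | cons a w ih =>
    have e1 : dbl (a :: w) = a :: a :: dbl w := rfl
    rw [e1, List.flatMap_cons, List.flatMap_cons, ih]
    rfl

theorem u0_map {v : List ℕ} {l r : ℕ} (hl : l = 1 ∨ l = 2) (hr : r = 3 ∨ r = 4) :
    (u0 v l r).map (gm l r) = 0 :: (v.map (fun c => c + 3) ++ [1]) := by
  have e0 : gm l r l = 0 := by unfold gm; rw [if_pos rfl]
  have e1 : gm l r r = 1 := by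
    unfold gm
    rw [if_neg (by omega), if_pos rfl]
  unfold u0
  rw [List.map_cons, List.map_append, List.map_map, e0, List.map_cons, List.map_nil, e1]
  have e2 : (gm l r ∘ fun c => c + 7) = fun c => c + 3 := by
    funext c
    simp only [Function.comp_apply]
    unfold gm
    rw [if_neg (by omega), if_neg (by omega), if_neg (by omega)]
    omega
  rw [e2]

/-- the normal form of a filtered and renamed word -/
theorem nf {β : FIC} (hD : Db1Stmt) (hβ : Bt β) {v w0 w1 : List ℕ} (hB : Bas v w0 w1) {l r : ℕ}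
    (hl : l = 1 ∨ l = 2) (hr : r = 3 ∨ r = 4) (e : List ℕ)
    (he : RR β (dbl (w1.filter (pf l r))) (dbl e)) :
    RR β (((w0 ++ 0 :: w1).filter (pf l r)).flatMap (gs l r))
      (dbl (0 :: (v.map (fun c => c + 3) ++ [1])) ++ 2 :: dbl (e.map (gm l r))) := by
  have hp0 : pf l r 0 = true := by unfold pf; simp
  have h0 : 0 ∉ w0 := by
    rw [hB.m0, mem_c0]
    rintro (h | h)
    · omega
    · have := mem_m h; omega
  have h1 : 0 ∉ w1 := by
    rw [hB.m1]; omega
  have ef : (w0 ++ 0 :: w1).filter (pf l r) = w0.filter (pf l r) ++ 0 :: w1.filter (pf l r) := by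
    rw [List.filter_append, List.filter_cons_of_pos hp0]
  have hmul : ∀ c ∈ (w0 ++ 0 :: w1).filter (pf l r), c ≠ 0 →
      [c, c].Sublist ((w0 ++ 0 :: w1).filter (pf l r)) := by
    intro c hc hc0
    rw [List.mem_filter] at hc
    rw [pair_filter]
    refine ⟨hc.2, hc.2, ?_⟩
    rw [pair_append]
    by_cases h5 : 5 ≤ c
    · left
      apply hB.tw c h5
      rcases List.mem_append.1 hc.1 with h | h
      · exact h
      · rcases List.mem_cons.1 h with h | h
        · exact absurd h hc0
        · rw [hB.m1] at h; omega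
    · right; left
      refine ⟨?_, List.mem_cons_of_mem _ ?_⟩
      · rw [hB.m0, mem_c0]; left; omega
      · rw [hB.m1]; omega
  have hd := hD β hβ.ap hβ.bet _ hmul
  rw [ef] at hd
  have ed : d0 (w0.filter (pf l r) ++ 0 :: w1.filter (pf l r)) =
      dbl (w0.filter (pf l r)) ++ 0 :: dbl (w1.filter (pf l r)) := by
    rw [← d0_dbl (fun h => h0 (List.mem_filter.1 h).1),
      ← d0_dbl (fun h => h1 (List.mem_filter.1 h).1)]
    unfold d0
    rw [List.flatMap_append, List.flatMap_cons, if_pos rfl]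
    rfl
  rw [ed] at hd
  have h2 : RR β (dbl (w0.filter (pf l r)) ++ 0 :: dbl (w1.filter (pf l r)))
      (dbl (u0 v l r) ++ 0 :: dbl e) :=
    (first hβ hB hl hr).append ((RR.refl (β := β) [0]).append he)
  have h3 := (rtr hd h2).sub (gs l r)
  have e3 : (dbl (u0 v l r) ++ 0 :: dbl e).flatMap (gs l r) =
      dbl (0 :: (v.map (fun c => c + 3) ++ [1])) ++ 2 :: dbl (e.map (gm l r)) := by
    rw [List.flatMap_append, List.flatMap_cons, sub_dbl, sub_dbl, u0_map hl hr]
    have : gs l r 0 = [2] := by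
      unfold gs gm
      rw [if_neg (by omega), if_neg (by omega), if_pos rfl]
    rw [this]
    rfl
  rw [e3] at h3
  rw [ef]
  exact h3

/-- multiplication behind the simple letter -/
theorem ins {β : FIC} {v a b : List ℕ} (x : ℕ) (hx : x = 0 ∨ x = 1)
    (ha : ∀ c ∈ a, c = 0 ∨ c = 1) (hb : ∀ c ∈ b, c = 0 ∨ c = 1)
    (h : RR β (dbl (0 :: (v.map (fun c => c + 3) ++ [1])) ++ 2 :: a)
      (dbl (0 :: (v.map (fun c => c + 3) ++ [1])) ++ 2 :: b)) :
    RR β (dbl (0 :: (v.map (fun c => c + 3) ++ [1])) ++ 2 :: x :: x :: a)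
      (dbl (0 :: (v.map (fun c => c + 3) ++ [1])) ++ 2 :: x :: x :: b) := by
  have h1 := h.sub (fun c => if c = 2 then [2, x, x] else [c])
  have fixl : ∀ l : List ℕ, 2 ∉ l → l.flatMap (fun c => if c = 2 then [2, x, x] else [c]) = l := by
    intro l hl
    induction l with
    | nil => rfl
    | cons a l ih =>
      rw [List.flatMap_cons, ih (fun e => hl (List.mem_cons_of_mem _ e)),
        if_neg (fun e => hl (by simp [e]))]
      rfl
  have hU : 2 ∉ dbl (0 :: (v.map (fun c => c + 3) ++ [1])) := by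
    rw [mem_dbl]
    simp only [List.mem_cons, List.mem_append, List.mem_map, List.not_mem_nil, or_false, not_or,
      not_exists, not_and]
    exact ⟨by omega, fun a _ => by omega, by omega⟩
  have ha2 : 2 ∉ a := fun e => by rcases ha 2 e with h | h <;> omega
  have hb2 : 2 ∉ b := fun e => by rcases hb 2 e with h | h <;> omega
  rw [List.flatMap_append, List.flatMap_append, List.flatMap_cons, List.flatMap_cons, fixl _ hU,
    fixl _ ha2, fixl _ hb2, if_pos rfl] at h1
  exact h1

theorem x4 {β : FIC} (hβ : Bt β) (x : ℕ) : RR β [x, x, x, x] [x, x] := by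
  have h1 : RR β [x, x] [x, x, x] := hβ.ap.sq.sub (fun _ => [x])
  have h2 : RR β [x, x, x] [x, x, x, x] := h1.append (RR.refl [x])
  exact (rtr h1 h2).symm

theorem swap3 {β : FIC} (hβ : Bt β) : RR β (dbl [1, 0, 1]) (dbl [0, 1, 0]) := by
  apply hβ.sato
  · intro a
    simp only [List.mem_cons, List.not_mem_nil, or_false]
    omega
  · intro a b hab
    rw [pair_three hab (by omega), pair_three hab (by omega)]
    omega

theorem vis (hD : Db1Stmt) : VisStmt := by
  intro β hβ v w0 w1 w0' w1' hB hB' hR l r hl hr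
  have hlr : l ≠ r := by omega
  have hlr0 : l ≠ 0 := by omega
  have e0 : gm l r l = 0 := by unfold gm; rw [if_pos rfl]
  have e1 : gm l r r = 1 := by
    unfold gm
    rw [if_neg (by omega), if_pos rfl]
  -- members of the filtered second block
  have hm : ∀ w1 : List ℕ, (∀ c, c ∈ w1 ↔ (1 ≤ c ∧ c ≤ 4)) →
      ∀ c, c ∈ w1.filter (pf l r) ↔ c = l ∨ c = r := by
    intro w1 h c
    rw [List.mem_filter, h]
    unfold pf
    rw [decide_eq_true_eq]
    omega
  have hpl : pf l r l = true := by unfold pf; simp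
  have hpr : pf l r r = true := by unfold pf; simp
  have hflt : ∀ w : List ℕ, ([r, l].Sublist (w.filter (pf l r)) ↔ [r, l].Sublist w) ∧
      ([l, r].Sublist (w.filter (pf l r)) ↔ [l, r].Sublist w) := by
    intro w
    constructor
    · rw [pair_filter]; simp [hpl, hpr]
    · rw [pair_filter]; simp [hpl, hpr]
  have hRf := (hR.filter (pf l r)).sub (gs l r)
  have s1 := second hβ hlr (hm w1 hB.m1)
  have s2 := second hβ hlr (hm w1' hB'.m1)
  rw [(hflt w1).1, (hflt w1).2] at s1
  rw [(hflt w1').1, (hflt w1').2] at s2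
  have main : ∀ e e' : List ℕ, RR β (dbl (w1.filter (pf l r))) (dbl e) →
      RR β (dbl (w1'.filter (pf l r))) (dbl e') →
      RR β (dbl (0 :: (v.map (fun c => c + 3) ++ [1])) ++ 2 :: dbl (e.map (gm l r)))
        (dbl (0 :: (v.map (fun c => c + 3) ++ [1])) ++ 2 :: dbl (e'.map (gm l r))) := by
    intro e e' he he'
    exact rtr (nf hD hβ hB hl hr e he).symm (rtr hRf (nf hD hβ hB' hl hr e' he'))
  have m2 : [l, r].map (gm l r) = [0, 1] := by rw [List.map_cons, List.map_cons, e0, e1]; rfl
  have m2' : [r, l].map (gm l r) = [1, 0] := by rw [List.map_cons, List.map_cons, e0, e1]; rfl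
  have m3 : [l, r, l].map (gm l r) = [0, 1, 0] := by
    rw [List.map_cons, List.map_cons, List.map_cons, e0, e1]; rfl
  constructor
  · intro hn hy
    have hh := s1.1 hy
    by_cases hb : [l, r].Sublist w1'
    · have := main _ _ hh (s2.2.2 hb hn)
      rw [m2, m3] at this
      exact this
    · have h3 := main _ _ hh (s2.2.1 hb)
      rw [m2, m2'] at h3
      have h4 := ins 0 (Or.inl rfl) (by decide) (by decide) h3
      have h5 : RR β ([0, 0, 0, 0] ++ [1, 1]) ([0, 0] ++ [1, 1]) := (x4 hβ 0).append (RR.refl _)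
      have h6 : RR β (dbl (0 :: (v.map (fun c => c + 3) ++ [1])) ++ ([2] ++ [0, 0, 0, 0, 1, 1]))
          (dbl (0 :: (v.map (fun c => c + 3) ++ [1])) ++ ([2] ++ [0, 0, 1, 1])) :=
        (RR.refl _).append ((RR.refl _).append h5)
      exact rtr h6.symm h4
  · intro hn hy
    have hh := s1.2.1 hy
    by_cases hb : [r, l].Sublist w1'
    · have := main _ _ hh (s2.2.2 hn hb)
      rw [m2', m3] at this
      exact this
    · have h3 := main _ _ hh (s2.1 hb)
      rw [m2', m2] at h3
      have h4 := ins 1 (Or.inr rfl) (by decide) (by decide) h3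
      have h5 : RR β ([1, 1, 1, 1] ++ [0, 0]) ([1, 1] ++ [0, 0]) := (x4 hβ 1).append (RR.refl _)
      have h6 : RR β (dbl (0 :: (v.map (fun c => c + 3) ++ [1])) ++ ([2] ++ [1, 1, 1, 1, 0, 0]))
          (dbl (0 :: (v.map (fun c => c + 3) ++ [1])) ++ ([2] ++ [1, 1, 0, 0])) :=
        (RR.refl _).append ((RR.refl _).append h5)
      have h7 := swap3 hβ
      have h8 : RR β (dbl (0 :: (v.map (fun c => c + 3) ++ [1])) ++ ([2] ++ dbl [1, 0, 1]))
          (dbl (0 :: (v.map (fun c => c + 3) ++ [1])) ++ ([2] ++ dbl [0, 1, 0])) :=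
        (RR.refl _).append ((RR.refl _).append h7)
      exact rtr h6.symm (rtr h4 h8)

end Pool.Agent.MWP.H30
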